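import Pool.Agent.Helper598.MT.Proof

set_option autoImplicit false

namespace Pool.Agent.Results.MP_b9449f_co.MultitriangulationsRigid

open Pool.Agent.Helper598.MT

/-- For all `k ≥ 1` and `n ≥ 2k + 1`, every `k`-triangulation of the convex `n`-gon is minimally
generically rigid in dimension `2k`. -/
theorem result (k n : ℕ) (hk : 1 ≤ k) (hn : 2 * k + 1 ≤ n) (G : SimpleGraph (Fin n))
    (hG : IsKTriangulation k G) : IsMinimallyGenericallyRigid (2 * k) G :=
  main k n hk hn G hG

end Pool.Agent.Results.MP_b9449f_co.MultitriangulationsRigid
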